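import Pool.Agent.Work.MP_223b32_tl.Interface

/-!
# T1, block ID: the relations form a saturated ideal
-/

namespace Pool.Agent.Work.TL

open Finset Polynomial Pool.Agent.Work.MP_223b32_ag Pool.Agent.Work.MP_223b32_ag_56
  Pool.Agent.Work.TC

namespace ID

/-- the product over any large finite set -/
theorem th_eq (q : ℕ) (al : ℕ → AA) (P : ℤ[X]) (s : Finset ℕ) (hs : P.support ⊆ s) :
    Th q al P = ∏ i ∈ s, ((al i : ℂ) ^ 2 / q) ^ P.coeff i := by
  unfold Th
  apply Finset.prod_subset hs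
  intro i _ hi
  rw [Polynomial.notMem_support_iff.1 hi, zpow_zero]

variable {q : ℕ} {al : ℕ → AA}

theorem th_add (h0 : ∀ i, ((al i : ℂ) ^ 2 / q) ≠ 0) (P Q : ℤ[X]) :
    Th q al (P + Q) = Th q al P * Th q al Q := by
  rw [th_eq q al (P + Q) (P.support ∪ Q.support) Polynomial.support_add,
    th_eq q al P (P.support ∪ Q.support) Finset.subset_union_left,
    th_eq q al Q (P.support ∪ Q.support) Finset.subset_union_right, ← Finset.prod_mul_distrib]
  apply Finset.prod_congr rfl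
  intro i _
  rw [Polynomial.coeff_add, zpow_add₀ (h0 i)]

theorem th_zero : Th q al 0 = 1 := by
  unfold Th
  simp

theorem th_C_mul (m : ℤ) (P : ℤ[X]) : Th q al (C m * P) = Th q al P ^ m := by
  have hsub : (C m * P).support ⊆ P.support := by
    intro i hi
    rw [Polynomial.mem_support_iff, Polynomial.coeff_C_mul] at hi
    rw [Polynomial.mem_support_iff]
    exact right_ne_zero_of_mul hi
  rw [th_eq q al (C m * P) P.support hsub]
  unfold Th
  rw [← Finset.prod_zpow]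
  apply Finset.prod_congr rfl
  intro i _
  rw [Polynomial.coeff_C_mul, mul_comm, zpow_mul]

theorem th_C (m : ℤ) : Th q al (C m) = ((al 0 : ℂ) ^ 2 / q) ^ m := by
  rw [th_eq q al (C m) {0} (by
    intro i hi
    rw [Polynomial.mem_support_iff, Polynomial.coeff_C] at hi
    by_contra hne
    rw [Finset.mem_singleton] at hne
    rw [if_neg hne] at hi
    exact hi rfl)]
  rw [Finset.prod_singleton, Polynomial.coeff_C_zero]

theorem th_X_pow (g : ℕ) : Th q al (X ^ g) = ((al g : ℂ) ^ 2 / q) := by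
  rw [th_eq q al (X ^ g) {g} (by
    intro i hi
    rw [Polynomial.mem_support_iff, Polynomial.coeff_X_pow] at hi
    by_contra hne
    rw [Finset.mem_singleton] at hne
    rw [if_neg hne] at hi
    exact hi rfl)]
  rw [Finset.prod_singleton, Polynomial.coeff_X_pow, if_pos rfl, zpow_one]

/-- a relation as an equation without denominators -/
theorem key (hq : q ≠ 0) (a : ℕ → AA) (ha : ∀ i, a i ≠ 0) (s : Finset ℕ) (p : ℕ → ℤ) (M : ℕ) :
    (∏ i ∈ s, ((a i : ℂ) ^ 2 / q) ^ p i) ^ M = 1 ↔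
    ((∏ i ∈ s, a i ^ (2 * (p i).toNat)) * (q : AA) ^ (∑ i ∈ s, (-p i).toNat)) ^ M =
      ((∏ i ∈ s, a i ^ (2 * (-p i).toNat)) * (q : AA) ^ (∑ i ∈ s, (p i).toNat)) ^ M := by
  have hqC : (q : ℂ) ≠ 0 := by exact_mod_cast hq
  have haC : ∀ i, (a i : ℂ) ≠ 0 := fun i h => ha i (Subtype.ext h)
  have h1 : ∀ i, ((a i : ℂ) ^ 2 / q) ^ p i =
      ((a i : ℂ) ^ (2 * (p i).toNat) * (q : ℂ) ^ (-p i).toNat) /
        ((a i : ℂ) ^ (2 * (-p i).toNat) * (q : ℂ) ^ (p i).toNat) := by
    intro i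
    have h2 : ((a i : ℂ) ^ 2 / q) ≠ 0 := div_ne_zero (pow_ne_zero _ (haC i)) hqC
    have h3 : p i = ((p i).toNat : ℤ) - ((-p i).toNat : ℤ) := by omega
    conv_lhs => rw [h3]
    rw [zpow_sub₀ h2, zpow_natCast, zpow_natCast, div_pow, div_pow, ← pow_mul, ← pow_mul]
    have h4 : (a i : ℂ) ^ (2 * (-p i).toNat) ≠ 0 := pow_ne_zero _ (haC i)
    have h5 : (q : ℂ) ^ (p i).toNat ≠ 0 := pow_ne_zero _ hqC
    have h6 : (q : ℂ) ^ (-p i).toNat ≠ 0 := pow_ne_zero _ hqC
    rw [div_div_div_eq]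
    rw [mul_comm ((q : ℂ) ^ (p i).toNat)]
  have h7 : (∏ i ∈ s, ((a i : ℂ) ^ 2 / q) ^ p i) =
      ((∏ i ∈ s, (a i : ℂ) ^ (2 * (p i).toNat)) * (q : ℂ) ^ (∑ i ∈ s, (-p i).toNat)) /
        ((∏ i ∈ s, (a i : ℂ) ^ (2 * (-p i).toNat)) * (q : ℂ) ^ (∑ i ∈ s, (p i).toNat)) := by
    rw [Finset.prod_congr rfl (fun i _ => h1 i), Finset.prod_div_distrib,
      Finset.prod_mul_distrib, Finset.prod_mul_distrib, Finset.prod_pow_eq_pow_sum,
      Finset.prod_pow_eq_pow_sum]
  have h8 : ((∏ i ∈ s, (a i : ℂ) ^ (2 * (-p i).toNat)) * (q : ℂ) ^ (∑ i ∈ s, (p i).toNat)) ^ M ≠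
      0 := by
    apply pow_ne_zero
    apply mul_ne_zero
    · exact Finset.prod_ne_zero_iff.2 (fun i _ => pow_ne_zero _ (haC i))
    · exact pow_ne_zero _ hqC
  rw [h7, div_pow, div_eq_one_iff_eq h8]
  constructor
  · intro h
    apply Subtype.ext
    have e1 : ((((∏ i ∈ s, a i ^ (2 * (p i).toNat)) * (q : AA) ^ (∑ i ∈ s, (-p i).toNat)) ^ M :
        AA) : ℂ) = ((∏ i ∈ s, (a i : ℂ) ^ (2 * (p i).toNat)) *
          (q : ℂ) ^ (∑ i ∈ s, (-p i).toNat)) ^ M := by
      push_cast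
      rfl
    have e2 : ((((∏ i ∈ s, a i ^ (2 * (-p i).toNat)) * (q : AA) ^ (∑ i ∈ s, (p i).toNat)) ^ M :
        AA) : ℂ) = ((∏ i ∈ s, (a i : ℂ) ^ (2 * (-p i).toNat)) *
          (q : ℂ) ^ (∑ i ∈ s, (p i).toNat)) ^ M := by
      push_cast
      rfl
    rw [e1, e2]
    exact h
  · intro h
    have h' := congrArg (fun x : AA => (x : ℂ)) h
    push_cast at h'
    exact h'

/-- relations are preserved by multiplication with `X` -/
theorem rel_X_mul (hq : q ≠ 0) (ha : ∀ i, al i ≠ 0) (σ : AA ≃+* AA)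
    (hσ : ∀ i, al (i + 1) = σ (al i)) (P : ℤ[X]) (h : Rel q al P) : Rel q al (X * P) := by
  obtain ⟨M, hM, h⟩ := h
  refine ⟨M, hM, ?_⟩
  set N := P.natDegree + 1 with hN
  have hP : P.support ⊆ range N := by
    intro i hi
    rw [Finset.mem_range]
    exact Nat.lt_succ_of_le (Polynomial.le_natDegree_of_mem_supp i hi)
  rw [th_eq q al P (range N) hP, key hq al ha] at h
  have hXP : (X * P).support ⊆ range (N + 1) := by
    intro i hi
    rw [Finset.mem_range]
    have h1 := Polynomial.le_natDegree_of_mem_supp i hi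
    have h2 : (X * P).natDegree ≤ P.natDegree + 1 := by
      refine Polynomial.natDegree_mul_le.trans ?_
      have := Polynomial.natDegree_X_le (R := ℤ)
      omega
    omega
  rw [th_eq q al (X * P) (range (N + 1)) hXP, Finset.prod_range_succ']
  have h3 : (X * P).coeff 0 = 0 := by simp
  have h4 : ∀ i, (X * P).coeff (i + 1) = P.coeff i := fun i => Polynomial.coeff_X_mul P i
  rw [h3, zpow_zero, mul_one]
  have h5 : (∏ k ∈ range N, ((al (k + 1) : ℂ) ^ 2 / q) ^ (X * P).coeff (k + 1)) =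
      ∏ k ∈ range N, ((((fun j => σ (al j)) k : AA) : ℂ) ^ 2 / q) ^ P.coeff k := by
    apply Finset.prod_congr rfl
    intro k _
    rw [h4, hσ]
  rw [h5, key hq (fun j => σ (al j)) (fun j hj => ha j (by
    have := congrArg σ.symm hj
    simpa using this))]
  have h6 := congrArg σ h
  simp only [map_pow, map_mul, map_prod, map_natCast] at h6
  exact h6

theorem rel_add (h0 : ∀ i, ((al i : ℂ) ^ 2 / q) ≠ 0) (P Q : ℤ[X]) (hP : Rel q al P)
    (hQ : Rel q al Q) : Rel q al (P + Q) := by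
  obtain ⟨M, hM, h⟩ := hP
  obtain ⟨M', hM', h'⟩ := hQ
  refine ⟨M * M', Nat.mul_pos hM hM', ?_⟩
  rw [th_add h0, mul_pow, pow_mul, h, one_pow, mul_comm M, pow_mul, h', one_pow, one_mul]

theorem rel_C_mul (m : ℤ) (P : ℤ[X]) (hP : Rel q al P) : Rel q al (C m * P) := by
  obtain ⟨M, hM, h⟩ := hP
  refine ⟨M, hM, ?_⟩
  rw [th_C_mul, ← zpow_natCast, ← zpow_mul, mul_comm, zpow_mul, zpow_natCast, h, one_zpow]

theorem rel_of_C_mul (m : ℤ) (hm : m ≠ 0) (P : ℤ[X]) (hP : Rel q al (C m * P)) : Rel q al P := by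
  obtain ⟨M, hM, h⟩ := hP
  refine ⟨m.natAbs * M, Nat.mul_pos (Int.natAbs_pos.2 hm) hM, ?_⟩
  rw [th_C_mul] at h
  rw [pow_mul]
  rcases Int.natAbs_eq m with h1 | h1
  · rw [h1, zpow_natCast] at h
    exact h
  · rw [h1, zpow_neg, zpow_natCast, inv_pow, inv_eq_one] at h
    exact h

end ID

open ID in
theorem stmt_ID : Stmt_ID := by
  intro n g η q ρ σ r ζ al be w v O
  have hq : q ≠ 0 := by
    intro h
    have := O.odd_q
    rw [h] at this
    exact absurd this (by decide)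
  have hqA : (q : AA) ≠ 0 := by
    intro h
    have h' := congrArg (fun x : AA => (x : ℂ)) h
    push_cast at h'
    exact hq (by exact_mod_cast h')
  have ha : ∀ i, al i ≠ 0 := by
    intro i h
    have := O.mul i
    rw [h, zero_mul] at this
    exact hqA this.symm
  have hqC : (q : ℂ) ≠ 0 := by exact_mod_cast hq
  have haC : ∀ i, (al i : ℂ) ≠ 0 := fun i h => ha i (Subtype.ext h)
  have h0 : ∀ i, ((al i : ℂ) ^ 2 / q) ≠ 0 := fun i => div_ne_zero (pow_ne_zero _ (haC i)) hqC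
  have hzero : Rel q al 0 := ⟨1, one_pos, by rw [th_zero, one_pow]⟩
  have hXk : ∀ (k : ℕ) (P : ℤ[X]), Rel q al P → Rel q al (X ^ k * P) := by
    intro k P hP
    induction k with
    | zero => simpa using hP
    | succ k ih =>
      have := rel_X_mul hq ha σ O.shift _ ih
      rw [pow_succ', mul_assoc]
      exact this
  have hmul : ∀ Q P : ℤ[X], Rel q al P → Rel q al (Q * P) := by
    intro Q P hP
    induction Q using Polynomial.induction_on' with
    | add Q1 Q2 h1 h2 =>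
      rw [add_mul]
      exact rel_add h0 _ _ h1 h2
    | monomial k m =>
      rw [← Polynomial.C_mul_X_pow_eq_monomial, mul_assoc]
      exact rel_C_mul m _ (hXk k P hP)
  refine ⟨{ carrier := {P | Rel q al P}
            add_mem' := fun {P Q} hP hQ => rel_add h0 P Q hP hQ
            zero_mem' := hzero
            smul_mem' := fun Q P hP => hmul Q P hP }, fun P => Iff.rfl, ?_, ?_⟩
  · intro m hm P hP
    exact rel_of_C_mul m hm P hP
  · show Rel q al (X ^ g - C η)
    refine ⟨1, one_pos, ?_⟩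
    rw [pow_one, sub_eq_add_neg, ← Polynomial.C_neg, th_add h0, th_X_pow, th_C]
    rcases O.per with ⟨h1, h2⟩ | ⟨h1, h2⟩
    · have h3 : al g = al 0 := by
        have := h2 0
        rwa [zero_add] at this
      rw [h1, h3, zpow_neg, zpow_one, mul_inv_cancel₀ (h0 0)]
    · have h3 : al g = be 0 := by
        have := h2 0
        rwa [zero_add] at this
      have h4 : (al 0 : ℂ) * (be 0 : ℂ) = q := by
        have := congrArg (fun x : AA => (x : ℂ)) (O.mul 0)
        push_cast at this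
        exact this
      rw [h1, h3, neg_neg, zpow_one, div_mul_div_comm, ← mul_pow, mul_comm (be 0 : ℂ), h4, sq,
        div_self (mul_ne_zero hqC hqC)]

end Pool.Agent.Work.TL
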